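import Pool.Agent.Lib_MP_8cd8c6_lc.Proof

/-!
# Deciding whether the circular chromatic number is below 3 is as hard as NAE-3SAT

For a circular colouring with `p / q < 3`, the winding number `|C| - 2 k(C)` of a cycle `C` is `0`
for a 4-cycle, `± 1` for a 5-cycle and `± 1` for a 9-cycle, and it is additive. So the variable
5-cycles carry truth values, prisms copy them, and the clause gadget (a 9-cycle with a centre joined
to every third vertex, which divides it into three 5-cycles) forces the values of its three faces to
be not all equal.
-/

namespace Pool.Agent.Lib_MP_8cd8c6_lc.Withdrawn.NAEReduction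

open Pool.Agent.Lib_MP_8cd8c6_lc

/-- For every NAE-3SAT instance `φ` with `n` variables and `m` clauses, the explicit graph
`redGraph φ` with `5 n + 10 m` vertices and at most `5 n + 27 m` edges satisfies: if `φ` is
satisfiable (in the not-all-equal sense) then its circular chromatic number is at most `8 / 3`, and
otherwise it is at least `3`. -/
theorem result (n m : ℕ) (φ : NAEInstance n m) :
    Fintype.card (RVert n m) = 5 * n + 10 * m ∧
    (redGraph φ).edgeSet.ncard ≤ 5 * n + 27 * m ∧
    (NAESat φ → circChromatic (redGraph φ) ≤ 8 / 3) ∧
    (¬ NAESat φ → 3 ≤ circChromatic (redGraph φ)) := by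
  refine ⟨?_, edges_le φ, complete φ, fun h => ?_⟩
  · simp only [Fintype.card_sum, Fintype.card_prod, Fintype.card_fin, ZMod.card]
    omega
  · by_contra hlt
    exact h (sound φ (not_le.mp hlt))

end Pool.Agent.Lib_MP_8cd8c6_lc.Withdrawn.NAEReduction
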