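import Pool.Agent.Lib_MP_8cd8c6_lc.Complete

/-!
# Deciding whether the circular chromatic number is below 3 is NP-complete
-/

namespace Pool.Agent.Lib_MP_8cd8c6_lc.Withdrawn.NPComplete

open Pool.Agent.Lib_MP_8cd8c6_lc

/-- CIRC<3 is NP-complete under polynomial-time many-one reductions: the decision problem which
asks whether a given bit string is the code of (the adjacency matrix of) a graph whose circular
chromatic number is less than `3` belongs to `NP`, and every problem in `NP` reduces to it. -/
theorem result : N793a5b8e.IsCompleteFor N68a2faeb.NP circLT3 :=
  circLT3_complete

end Pool.Agent.Lib_MP_8cd8c6_lc.Withdrawn.NPComplete
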